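import Mathlib
import Pool.Agent.R343.LY1
import Pool.Agent.Results.MP_4dacf8_ag.SparsePoints
import Pool.Agent.Y731.CC.Main

set_option autoImplicit false

/-!
# Vojta's height inequality over function fields, all pairs of log general type: points with
compressible coordinates

A word of letters is cut into `z` phrases (`LZ a N z`, Lempel and Ziv) if each phrase is a single
letter, or a (possibly empty) copy of a block that begins further to the left; the block may
overlap the phrase. For instance the word `u v ^ m w` has a number of phrases which does not depend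
on `m`. So the word of the coefficients of a polynomial of arbitrarily large degree, with
arbitrarily many nonzero coefficients, may have few phrases.

`F` is a function field of one variable over an algebraically closed field `k` of characteristic
zero, `X` a smooth irreducible projective variety of dimension `N` over `F`, `D = D_1 + ⋯ + D_q` a
divisor of `X` with strict normal crossings, `(X, D)` of log general type; the definitions are the
ones of `SparsePoints`. Let `S` be a finite set of places of `F`.

We consider the points `x` of `X` over all finite extensions `L` of `F` whose coordinates are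

`x_c = ∑_{j < r} u c j * f c j (τ c j)`,

`u c j` and `τ c j` in `L`, `f c j` polynomials over `k` of any degree whose words of coefficients have
`z` phrases. Let `ν(u, τ)` be the number, divided by `[L : F]`, of the places of `L`, neither over a
place of `S` nor on `D`, at which not all nonzero `u c j` have the same order or some `τ c j` has
nonzero order. So `ν = 0` if `u` and `τ` are units outside `S` and `D`.

Theorem: outside a proper closed subset, which depends only on the pair, `S`, `r` and `z`,
`h_(K + D)(x) ≤ C (χ(x) + N^(1)_D(x) + ν(u, τ)) + C'`.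

The starting result `SparsePoints` is the case of the monomials `f`. The proof: there is a product `Q`
of elements `τ ^ p - 1` such that all `Q x_c` are sums of at most `r 6 ^ (z n r)`, `n = N + 1 + s`, terms
which have the same orders as the `u c j` at the places where the `τ` are units (if a `τ` is a root
of unity then `f (τ)` is constant). The degree of `Q` is not bounded, but `Q` does not change the point.
-/

namespace Pool.Agent.R343.Kept.LempelZivSections

open MvPolynomial FF Pool.Agent.W603.PV Pool.Agent.Results.MP_4dacf8_ag.SparsePoints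
open Pool.Agent.R343.LP Pool.Agent.R343.FF

/-- The places of `L` at which not all nonzero `u c j` have the same order or some `τ c j` has nonzero
order. -/
def ramified (k : Type) {L : Type} [Field k] [Field L] [Algebra k L] {n r : ℕ}
    (u τ : Fin n → Fin r → L) : Set (Place k L) :=
  {P | P ∈ unequal k u ∨ ∃ c j, P.ord (τ c j) ≠ 0}

/-- `ν(u, τ)`: the number of the places of `L` at which not all nonzero `u c j` have the same order or
some `τ c j` has nonzero order, and which are neither over a place of `S` nor on `D`, divided by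
`[L : F]`. -/
noncomputable def nuUnits {k F L : Type} [Field k] [Field F] [Field L] [Algebra k L] [Algebra F L]
    [Algebra k F] [IsScalarTower k F L] [IsAlgClosed k] [CharZero k]
    [IsFF k F] [IsFF k L] {n q w r : ℕ} (S : Finset (Place k F))
    (E : Fin q → Fin w → MvPolynomial (Fin n) F) (d : Fin q → Fin w → ℕ) (x : Fin n → L)
    (u τ : Fin n → Fin r → L) : ℝ :=
  ({P : Place k L | P ∈ ramified k u τ ∧ under F P ∉ S ∧
    ∀ i, localHeight (E i) (d i) P x ≤ 0}.ncard : ℝ) / Module.finrank F L

section

variable {k F L : Type} [Field k] [IsAlgClosed k] [CharZero k] [Field F] [Field L] [Algebra k L]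
  [Algebra F L] [IsFF k L]

theorem onX_smul {n g : ℕ} {G : Fin g → MvPolynomial (Fin n) F} {e : Fin g → ℕ}
    (hG : ∀ j, (G j).IsHomogeneous (e j)) {x : Fin n → L} (hx : OnX G x) (D : L) :
    OnX G (fun c => D * x c) := by
  intro j
  rw [Pool.Agent.Y731.FG.aeval_smul_hom (hG j), hx j, mul_zero]

theorem basis_smul {n g N : ℕ} {G : Fin g → MvPolynomial (Fin n) F} {e : Fin g → ℕ}
    (hG : ∀ j, (G j).IsHomogeneous (e j)) {x : Fin n → L} {D : L} (hD : D ≠ 0)
    (A : Matrix (Fin n) (Fin (N + 1)) L) :
    IsTangentBasis G (fun c => D * x c) A ↔ IsTangentBasis G x A := by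
  unfold IsTangentBasis
  refine and_congr_right fun _ => forall_congr' fun j => forall_congr' fun c => ?_
  have h1 : ∑ a, aeval (fun c => D * x c) (pderiv a (G j)) * A a c =
      D ^ (e j - 1) * ∑ a, aeval x (pderiv a (G j)) * A a c := by
    rw [Finset.mul_sum]
    refine Finset.sum_congr rfl fun a _ => ?_
    rw [Pool.Agent.Y731.FG.grad_smul (hG j) D hD x a, mul_assoc]
  rw [h1, mul_eq_zero, or_iff_right (pow_ne_zero _ hD)]

theorem height_smul {n : ℕ} {x : Fin n → L} (hx : ∃ c, x c ≠ 0) {D : L} (hD : D ≠ 0) :
    height k (fun c => D * x c) = height k x :=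
  Pool.Agent.Y731.FG.hgtP_smul (k := k) hD hx

omit [IsAlgClosed k] [CharZero k] [IsFF k L] in
theorem local_smul {n w : ℕ} {E : Fin w → MvPolynomial (Fin n) F} {d : Fin w → ℕ}
    (hE : ∀ j, (E j).IsHomogeneous (d j)) {x : Fin n → L} (hx : ∃ c, x c ≠ 0) {D : L} (hD : D ≠ 0)
    (P : Place k L) : localHeight E d P (fun c => D * x c) = localHeight E d P x :=
  Pool.Agent.Y731.FG.locH_smul P hE hD hx

theorem log_smul {n N q w : ℕ} {E : Fin q → Fin w → MvPolynomial (Fin n) F}
    {d : Fin q → Fin w → ℕ} (hE : ∀ i j, (E i j).IsHomogeneous (d i j)) {x : Fin n → L}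
    (hx : ∃ c, x c ≠ 0) {D : L} (hD : D ≠ 0) (A : Matrix (Fin n) (Fin (N + 1)) L) :
    logCanonicalHeight k F E d (fun c => D * x c) A = logCanonicalHeight k F E d x A := by
  unfold logCanonicalHeight canonicalHeight componentHeight
  rw [height_smul hx hD]
  simp only [fun i => local_smul (k := k) (hE i) hx hD]

end

/-- **Main theorem.** Let `F` be a function field of one variable over an algebraically closed field
`k` of characteristic zero, `X` a smooth irreducible projective variety of dimension `N` over `F` in
`ℙ^(N + s)` and `D = D_1 + ⋯ + D_q` a divisor of `X` with strict normal crossings, such that `(X, D)`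
is of log general type. Let `S` be a finite set of places of `F`, `r` and `z` numbers. There are a
form `Φ` over `F` that does not vanish on `X` and constants `C`, `C'` such that for all finite
extensions `L` of `F` and all points `x` of `X` over `L`, off `D` and off `Φ = 0`, with
`x_c = ∑_{j < r} u c j * f c j (τ c j)`, where the `f c j` are polynomials over `k` of any degrees
(with the words of coefficients `a c j` of length `M c j`) with `z` phrases,
`h_(K + D)(x) ≤ C (χ(x) + N^(1)_D(x) + ν(u, τ)) + C'`. In particular
`h_(K + D)(x) ≤ C (χ(x) + N^(1)_D(x)) + C'` if at each place which is neither over `S` nor on `D` the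
nonzero `u c j` have the same order and the `τ c j` have order zero. -/
theorem result {k F : Type} [Field k] [IsAlgClosed k] [CharZero k] [Field F] [Algebra k F]
    [IsFF k F] (N s g q w r z : ℕ) (G : Fin g → MvPolynomial (Fin (N + 1 + s)) F) (e : Fin g → ℕ)
    (hG : ∀ j, (G j).IsHomogeneous (e j))
    (E : Fin q → Fin w → MvPolynomial (Fin (N + 1 + s)) F) (d : Fin q → Fin w → ℕ)
    (hE : ∀ i j, (E i j).IsHomogeneous (d i j)) (hdim : DimGE N G) (hsm : SmoothPair s G E)
    (hirr : Irred G) (hgt : LogGeneralType k N G E d) (S : Finset (Place k F)) :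
    ∃ (Φ : MvPolynomial (Fin (N + 1 + s)) F) (n : ℕ) (C C' : ℝ), Φ.IsHomogeneous n ∧
      NonZeroOn G Φ ∧
      ∀ (L : Type) [Field L] [Algebra k L] [Algebra F L] [IsScalarTower k F L]
        [FiniteDimensional F L] [IsFF k L] (x : Fin (N + 1 + s) → L)
        (u τ : Fin (N + 1 + s) → Fin r → L) (a : Fin (N + 1 + s) → Fin r → ℕ → k)
        (M : Fin (N + 1 + s) → Fin r → ℕ), x ≠ 0 → OnX G x →
        (∀ i, ∃ j, aeval x (E i j) ≠ 0) → aeval x Φ ≠ 0 → (∀ c j, LZ (a c j) (M c j) z) →
        (∀ c, x c = ∑ j, u c j * val (a c j) (M c j) (τ c j)) →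
        (∃ A : Matrix (Fin (N + 1 + s)) (Fin (N + 1)) L, IsTangentBasis G x A) ∧
        ∀ A : Matrix (Fin (N + 1 + s)) (Fin (N + 1)) L, IsTangentBasis G x A →
          logCanonicalHeight k F E d x A ≤
            C * (chi k F L + truncatedCounting k E d x + nuUnits S E d x u τ) + C' ∧
          ((∀ P : Place k L, under F P ∉ S → (∀ i, localHeight (E i) (d i) P x ≤ 0) →
            P ∉ ramified k u τ) →
            logCanonicalHeight k F E d x A ≤ C * (chi k F L + truncatedCounting k E d x) + C') := by
  classical
  obtain ⟨Φ, n, C, C', hn, hΦ, hmain⟩ := SparsePoints.result (k := k) N s g q w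
    (r * (6 ^ z) ^ ((N + 1 + s) * r)) G e hG E d hE hdim hsm hirr hgt S
  refine ⟨Φ, n, |C|, C' + 2 * (|C| - C), hn, hΦ, ?_⟩
  intro L _ _ _ _ _ _ x u τ a M hx hX hEx hΦx hLZ hxe
  have hx0 : ∃ c, x c ≠ 0 := by
    by_contra hno
    push Not at hno
    exact hx (funext hno)
  obtain ⟨D, t, hD, ht, hord⟩ := terms (k := k) z x u τ a M hLZ hxe
  have hx' : (fun c => D * x c) ≠ 0 := by
    obtain ⟨c, hc⟩ := hx0
    intro h
    exact mul_ne_zero hD hc (congrFun h c)
  obtain ⟨⟨A0, hA0⟩, hall⟩ := hmain L (fun c => D * x c) t hx' (onX_smul hG hX D)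
    (fun i => by
      obtain ⟨j, hj⟩ := hEx i
      refine ⟨j, ?_⟩
      rw [Pool.Agent.Y731.FG.aeval_smul_hom (hE i j)]
      exact mul_ne_zero (pow_ne_zero _ hD) hj)
    (by
      rw [Pool.Agent.Y731.FG.aeval_smul_hom hn]
      exact mul_ne_zero (pow_ne_zero _ hD) hΦx) ht
  refine ⟨⟨A0, (basis_smul hG hD A0).1 hA0⟩, fun A hA => ?_⟩
  obtain ⟨h1, h2⟩ := hall A ((basis_smul hG hD A).2 hA)
  rw [log_smul hE hx0 hD] at h1 h2
  have hloc : ∀ (i : Fin q) (P : Place k L), localHeight (E i) (d i) P (fun c => D * x c) =
      localHeight (E i) (d i) P x := fun i P => local_smul (hE i) hx0 hD P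
  have htr : truncatedCounting k E d (fun c => D * x c) = truncatedCounting k E d x := by
    unfold truncatedCounting
    simp only [hloc]
  rw [htr] at h1 h2
  simp only [hloc] at h2
  -- the places
  have hsub : ∀ P : Place k L, P ∈ unequal k t → P ∈ ramified k u τ := by
    intro P hP
    by_contra hcon
    unfold ramified at hcon
    have hcon1 : P ∉ unequal k u := fun h => hcon (Or.inl h)
    have hcon2 : ∀ c j, P.ord (τ c j) = 0 := by
      intro c j
      by_contra h
      exact hcon (Or.inr ⟨c, j, h⟩)
    obtain ⟨c, i, c', i', h3, h4, h5⟩ := hP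
    obtain ⟨j, h6, h7⟩ := hord P hcon2 c i h3
    obtain ⟨j', h8, h9⟩ := hord P hcon2 c' i' h4
    exact hcon1 ⟨c, j, c', j', h6, h8, by rw [← h7, ← h9]; exact h5⟩
  have hfin : (ramified k u τ).Finite := by
    have h3 : (⋃ c, ⋃ j, {P : Place k L | P.ord (τ c j) ≠ 0}).Finite :=
      Set.finite_iUnion fun c => Set.finite_iUnion fun j => finite_support (τ c j)
    refine (((Pool.Agent.Y731.FG.uneq_finite u : (unequal k u).Finite)).union h3).subset ?_
    rintro P (h | ⟨c, j, h⟩)
    · exact Or.inl h
    · exact Or.inr (Set.mem_iUnion.2 ⟨c, Set.mem_iUnion.2 ⟨j, h⟩⟩)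
  have hnu : nu S E d (fun c => D * x c) t ≤ nuUnits S E d x u τ := by
    unfold nu nuUnits
    refine div_le_div_of_nonneg_right ?_ (Nat.cast_nonneg _)
    simp only [hloc]
    have h3 := Set.ncard_le_ncard (s := {P : Place k L | P ∈ unequal k t ∧ under F P ∉ S ∧
      ∀ i, localHeight (E i) (d i) P x ≤ 0}) (t := {P : Place k L | P ∈ ramified k u τ ∧
        under F P ∉ S ∧ ∀ i, localHeight (E i) (d i) P x ≤ 0})
      (fun P hP => ⟨hsub P hP.1, hP.2⟩) (hfin.subset fun P hP => hP.1)
    exact_mod_cast h3
  have hfr : (1 : ℝ) ≤ Module.finrank F L := by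
    exact_mod_cast Module.finrank_pos (R := F) (M := L)
  have hchi : -2 ≤ chi k F L := by
    unfold chi
    have h3 : (0 : ℤ) ≤ Pool.Agent.W603.LV.canDeg k L + 2 := Pool.Agent.Y731.CC.canDeg_ge
    have h4 : (0 : ℝ) ≤ (Pool.Agent.W603.LV.canDeg k L : ℝ) + 2 := by exact_mod_cast h3
    rw [le_div_iff₀ (by linarith)]
    linarith
  have htr0 : 0 ≤ truncatedCounting k E d x := div_nonneg (Nat.cast_nonneg _) (Nat.cast_nonneg _)
  have hnu0 : 0 ≤ nu S E d (fun c => D * x c) t := div_nonneg (Nat.cast_nonneg _) (Nat.cast_nonneg _)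
  have hC0 : 0 ≤ |C| - C := by linarith [le_abs_self C]
  have habs : 0 ≤ |C| := abs_nonneg C
  constructor
  · have h3 := mul_le_mul_of_nonneg_left hnu habs
    nlinarith [mul_nonneg hC0 (by linarith : 0 ≤ chi k F L + 2 + truncatedCounting k E d x +
      nu S E d (fun c => D * x c) t)]
  · intro hun
    have h3 := h2 fun P hP1 hP2 hP3 => hun P hP1 hP2 (hsub P hP3)
    nlinarith [mul_nonneg hC0 (by linarith : 0 ≤ chi k F L + 2 + truncatedCounting k E d x)]

end Pool.Agent.R343.Kept.LempelZivSections
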